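import Pool.Agent.Helper25.VRegProof

set_option autoImplicit false

namespace Pool.Agent.Results.MP_d985a5_al.NotAllQuadruples

open Pool.Agent.Helper25.VReg

/-- For every field `K` and every integer `b ≥ 2` the quadruple `(1, b, 2, 0)` satisfies the
conditions of the question, but there is no proper monomial ideal `I` over `K` with
`v(I^k) = k + b` and `reg(I^k) = 2 k` for all large `k`. -/
theorem result (K : Type*) [Field K] (b : ℤ) (hb : 2 ≤ b) :
    Admissible 1 b 2 0 ∧ ¬ Realised K 1 b 2 0 := by
  constructor
  · refine ⟨le_rfl, by omega, by norm_num, le_rfl, ?_⟩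
    filter_upwards [Filter.eventually_ge_atTop b.toNat] with k hk
    have : b ≤ (k : ℤ) := by
      have := Int.self_le_toNat b
      omega
    linarith
  · rintro ⟨n, I, hI, hI1, h⟩
    obtain ⟨k0, hk0⟩ := Filter.eventually_atTop.mp h
    obtain ⟨hv, hr⟩ := hk0 (max k0 (b.toNat + 2)) (le_max_left _ _)
    have hk : b.toNat + 2 ≤ max k0 (b.toNat + 2) := le_max_right _ _
    have hb' := Int.self_le_toNat b
    generalize max k0 (b.toNat + 2) = k at hv hr hk
    refine core hI hI1 (k := k) (by omega) ?_ (b := b) (by omega) hb ?_
    · convert hr using 1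
      push_cast
      ring
    · convert hv using 1
      ring

end Pool.Agent.Results.MP_d985a5_al.NotAllQuadruples
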